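import Pool.Agent.Helper79_WRA.Stmt

/-!
WRA: modules INTER and CONE.
-/

open scoped BigOperators

noncomputable section

namespace Pool.Agent.Helper79_WRA.H91

open Pool.Agent.Helper51_AWC Pool.Agent.Helper79_WRA

/-- INTER -/
theorem inter : InterStmt := by
  intro α _ _ s b c hs hle hmono hidem hb hcb hbl f hf
  classical
  rw [← Finset.sum_filter_add_sum_filter_not (chainsOn s b) (fun d => ∀ x ∈ d, c x = x)]
  rw [add_eq_left]
  -- the least non-fixed element
  have hex : ∀ d : Finset α, ∃ m : α, d ∈ (chainsOn s b).filter (fun d => ¬ ∀ x ∈ d, c x = x) →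
      m ∈ d ∧ c m ≠ m ∧ ∀ y ∈ d, c y ≠ y → m ≤ y := by
    intro d
    by_cases hd : d ∈ (chainsOn s b).filter (fun d => ¬ ∀ x ∈ d, c x = x)
    · have hd' := hd
      rw [Finset.mem_filter, mem_chainsOn] at hd'
      obtain ⟨⟨_, _, hch⟩, hne⟩ := hd'
      push Not at hne
      obtain ⟨x, hx, hxc⟩ := hne
      obtain ⟨m, hm, hmin⟩ := exists_least (d := d.filter (fun x => c x ≠ x))
        (hch.mono (by intro y hy; exact Finset.mem_of_mem_filter y hy))
        ⟨x, Finset.mem_filter.2 ⟨hx, hxc⟩⟩
      rw [Finset.mem_filter] at hm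
      exact ⟨m, fun _ => ⟨hm.1, hm.2, fun y hy hyc => hmin y (Finset.mem_filter.2 ⟨hy, hyc⟩)⟩⟩
    · exact ⟨b, fun h => absurd h hd⟩
  choose m hm using hex
  have hkey : ∀ d ∈ (chainsOn s b).filter (fun d => ¬ ∀ x ∈ d, c x = x),
      toggle d (c (m d)) ∈ (chainsOn s b).filter (fun d => ¬ ∀ x ∈ d, c x = x) ∧
      m (toggle d (c (m d))) = m d := by
    intro d hd
    obtain ⟨hmd, hmc, hmin⟩ := hm d hd
    have hd' := hd
    rw [Finset.mem_filter, mem_chainsOn] at hd'
    obtain ⟨⟨hsub, hbd, hch⟩, -⟩ := hd'
    have hms := hsub hmd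
    have hmem : toggle d (c (m d)) ∈ (chainsOn s b).filter (fun d => ¬ ∀ x ∈ d, c x = x) := by
      rw [Finset.mem_filter, mem_chainsOn]
      unfold toggle
      split_ifs with h
      · refine ⟨⟨(Finset.erase_subset _ _).trans hsub, ?_, ?_⟩, ?_⟩
        · rw [Finset.mem_erase]
          refine ⟨?_, hbd⟩
          intro hbe
          apply hmc
          have h1 : m d = b := hcb _ hms hbe.symm
          rw [h1, hb]
        · exact hch.mono (by intro y hy; exact Finset.mem_of_mem_erase hy)
        · push Not
          exact ⟨m d, Finset.mem_erase.2 ⟨fun h' => hmc h'.symm, hmd⟩, hmc⟩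
      · refine ⟨⟨?_, Finset.mem_insert_of_mem hbd, ?_⟩, ?_⟩
        · intro y hy
          rcases Finset.mem_insert.1 hy with rfl | hy
          · exact hs _ hms
          · exact hsub hy
        · rw [Finset.coe_insert]
          apply hch.insert
          intro y hy hne
          rcases chain_total hch hmd hy with h1 | h1
          · left; exact (hle _ hms).trans h1
          · by_cases hyc : c y = y
            · right
              rw [← hyc]; exact hmono _ (hsub hy) _ hms h1
            · have := hmin y hy hyc
              have : y = m d := le_antisymm h1 this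
              left; rw [this]; exact hle _ hms
        · push Not
          exact ⟨m d, Finset.mem_insert_of_mem hmd, hmc⟩
    refine ⟨hmem, ?_⟩
    obtain ⟨h1, h2, h3⟩ := hm _ hmem
    have hmt : m d ∈ toggle d (c (m d)) := by
      unfold toggle
      split_ifs with h
      · exact Finset.mem_erase.2 ⟨fun h' => hmc h'.symm, hmd⟩
      · exact Finset.mem_insert_of_mem hmd
    apply le_antisymm
    · exact h3 _ hmt hmc
    · have h4 : m (toggle d (c (m d))) ∈ d := by
        generalize m (toggle d (c (m d))) = t at h1 h2
        unfold toggle at h1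
        split_ifs at h1 with h
        · exact Finset.mem_of_mem_erase h1
        · rcases Finset.mem_insert.1 h1 with h' | h'
          · exfalso; apply h2; rw [h', hidem _ hms]
          · exact h'
      exact hmin _ h4 h2
  apply sum_toggle _ (fun d => c (m d))
  · intro d hd; exact (hkey d hd).1
  · intro d hd; rw [(hkey d hd).2]
  · intro d hd
    obtain ⟨hmd, hmc, hmin⟩ := hm d hd
    have hd' := Finset.mem_filter.1 hd
    simp only [toggle]
    split_ifs with h
    · have h1 : d.erase (c (m d)) ∈ chainsOn s b := by
        have := (hkey d hd).1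
        unfold toggle at this
        rw [if_pos h] at this
        exact (Finset.mem_filter.1 this).1
      have h2 := hf _ h1 (m d) (Finset.mem_erase.2 ⟨fun h' => hmc h'.symm, hmd⟩)
        (Finset.notMem_erase _ _)
      rw [Finset.insert_erase h] at h2
      rw [h2]; ring
    · exact hf d hd'.1 (m d) hmd h

/-- CONE -/
theorem cone : ConeStmt := by
  intro α _ _ s b o j hob hbl hs hle hoj hmin f hf
  classical
  -- the greatest element which is not above `o`
  have hex : ∀ d : Finset α, ∃ m : α, d ∈ chainsOn s b →
      m ∈ d ∧ ¬ o ≤ m ∧ ∀ y ∈ d, ¬ o ≤ y → y ≤ m := by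
    intro d
    by_cases hd : d ∈ chainsOn s b
    · obtain ⟨_, hbd, hch⟩ := mem_chainsOn.1 hd
      obtain ⟨m, hm, hmax⟩ := exists_greatest (d := d.filter (fun x => ¬ o ≤ x))
        (hch.mono (by intro y hy; exact Finset.mem_of_mem_filter y hy))
        ⟨b, Finset.mem_filter.2 ⟨hbd, hob⟩⟩
      rw [Finset.mem_filter] at hm
      exact ⟨m, fun _ => ⟨hm.1, hm.2, fun y hy hyo => hmax y (Finset.mem_filter.2 ⟨hy, hyo⟩)⟩⟩
    · exact ⟨b, fun h => absurd h hd⟩
  choose m hm using hex
  have hkey : ∀ d ∈ chainsOn s b, toggle d (j (m d)) ∈ chainsOn s b ∧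
      m (toggle d (j (m d))) = m d ∧ j (m d) ≠ m d := by
    intro d hd
    obtain ⟨hmd, hmo, hmax⟩ := hm d hd
    obtain ⟨hsub, hbd, hch⟩ := mem_chainsOn.1 hd
    have hms := hsub hmd
    have hjm : j (m d) ≠ m d := fun h => hmo (h ▸ hoj _ hms)
    have hmem : toggle d (j (m d)) ∈ chainsOn s b := by
      rw [mem_chainsOn]
      unfold toggle
      split_ifs with h
      · refine ⟨(Finset.erase_subset _ _).trans hsub, ?_, ?_⟩
        · rw [Finset.mem_erase]
          refine ⟨?_, hbd⟩
          intro hbe
          exact hob (hbe ▸ hoj _ hms)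
        · exact hch.mono (by intro y hy; exact Finset.mem_of_mem_erase hy)
      · refine ⟨?_, Finset.mem_insert_of_mem hbd, ?_⟩
        · intro y hy
          rcases Finset.mem_insert.1 hy with rfl | hy
          · exact hs _ hms
          · exact hsub hy
        · rw [Finset.coe_insert]
          apply hch.insert
          intro y hy hne
          by_cases hyo : o ≤ y
          · left
            have h1 : m d ≤ y := by
              rcases chain_total hch hmd hy with h1 | h1
              · exact h1
              · exact absurd (hyo.trans h1) hmo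
            exact hmin _ hms _ (hsub hy) h1 hyo
          · right
            exact (hmax y hy hyo).trans (hle _ hms)
    refine ⟨hmem, ?_, hjm⟩
    obtain ⟨h1, h2, h3⟩ := hm _ hmem
    have hmt : m d ∈ toggle d (j (m d)) := by
      unfold toggle
      split_ifs with h
      · exact Finset.mem_erase.2 ⟨fun h' => hjm h'.symm, hmd⟩
      · exact Finset.mem_insert_of_mem hmd
    apply le_antisymm
    · have h4 : m (toggle d (j (m d))) ∈ d := by
        generalize m (toggle d (j (m d))) = t at h1 h2
        unfold toggle at h1
        split_ifs at h1 with h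
        · exact Finset.mem_of_mem_erase h1
        · rcases Finset.mem_insert.1 h1 with h' | h'
          · exact absurd (h' ▸ hoj _ hms) h2
          · exact h'
      exact hmax _ h4 h2
    · exact h3 _ hmt hmo
  apply sum_toggle _ (fun d => j (m d))
  · intro d hd; exact (hkey d hd).1
  · intro d hd; rw [(hkey d hd).2.1]
  · intro d hd
    obtain ⟨hmd, hmo, hmax⟩ := hm d hd
    obtain ⟨hk1, hk2, hk3⟩ := hkey d hd
    simp only [toggle]
    split_ifs with h
    · have h1 : d.erase (j (m d)) ∈ chainsOn s b := by
        unfold toggle at hk1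
        rw [if_pos h] at hk1
        exact hk1
      have h2 := hf _ h1 (m d) (Finset.mem_erase.2 ⟨fun h' => hk3 h'.symm, hmd⟩)
        (Finset.notMem_erase _ _)
      rw [Finset.insert_erase h] at h2
      rw [h2]; ring
    · exact hf d hd (m d) hmd h

end Pool.Agent.Helper79_WRA.H91
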