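import Pool.Agent.Helper79_WRA.Basic
import Pool.Agent.Helper91_WRA.Inter

/-!
WRA: module CHAINRED.
-/

open scoped BigOperators

noncomputable section

namespace Pool.Agent.Helper79_WRA.H91

open Pool.Agent.Helper51_AWC Pool.Agent.Helper79_WRA

section group

variable {ℓ : ℕ} [Fact ℓ.Prime] {Γ : Type} [Group Γ]

omit [Fact ℓ.Prime] in
theorem conjS_inf (g : Γ) (A B : Subgroup Γ) : conjS g (A ⊓ B) = conjS g A ⊓ conjS g B := by
  ext x
  rw [mem_conjS, Subgroup.mem_inf, Subgroup.mem_inf, mem_conjS, mem_conjS]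

theorem conjS_sup (g : Γ) (A B : Subgroup Γ) : conjS g (A ⊔ B) = conjS g A ⊔ conjS g B := by
  unfold conjS
  exact Subgroup.map_sup _ _ _

theorem mem_cent {N : Subgroup Γ} {c : Finset (Subgroup Γ)} {x : Γ} :
    x ∈ cent N c ↔ x ∈ N ∧ ∀ D ∈ c, ∀ y ∈ D, y * x = x * y := by
  simp only [cent, Subgroup.mem_inf, Subgroup.mem_iInf, Subgroup.mem_centralizer_iff,
    SetLike.mem_coe]

/-- an element fixing all the members of `c` fixes `cent N c` -/
theorem conjS_cent {N : Subgroup Γ} (hN : N.Normal) {c : Finset (Subgroup Γ)} {g : Γ}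
    (hg : ∀ D ∈ c, conjS g D = D) : conjS g (cent N c) = cent N c := by
  have key : ∀ h : Γ, (∀ D ∈ c, conjS h D = D) → cent N c ≤ conjS h (cent N c) := by
    intro h hh x hx
    rw [mem_cent] at hx
    rw [mem_conjS, mem_cent]
    refine ⟨?_, ?_⟩
    · have := hN.conj_mem x hx.1 h⁻¹
      simpa using this
    · intro D hD y hy
      have h1 : h * y * h⁻¹ ∈ D := by
        rw [← hh D hD, mem_conjS]
        simpa [mul_assoc] using hy
      have h2 := hx.2 D hD _ h1
      have h3 : h * (y * (h⁻¹ * x * h)) * h⁻¹ = h * ((h⁻¹ * x * h) * y) * h⁻¹ := by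
        calc h * (y * (h⁻¹ * x * h)) * h⁻¹ = (h * y * h⁻¹) * x := by group
          _ = x * (h * y * h⁻¹) := h2
          _ = h * ((h⁻¹ * x * h) * y) * h⁻¹ := by group
      exact mul_left_cancel (mul_right_cancel h3)
  apply le_antisymm _ (key g hg)
  have hg' : ∀ D ∈ c, conjS g⁻¹ D = D := by
    intro D hD
    conv_lhs => rw [← hg D hD]
    rw [conjS_conjS, inv_mul_cancel, conjS_one]
  have h1 := conjS_mono (g := g) |>.2 (key g⁻¹ hg')
  rwa [conjS_conjS, mul_inv_cancel, conjS_one] at h1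

/-- an `ℓ`-subgroup meeting the normal subgroup `N` nontrivially contains a nontrivial element
of `N` in its centre -/
theorem exists_central [Finite Γ] {N D : Subgroup Γ} (hN : N.Normal) (hD : IsPGroup ℓ D)
    (hne : D ⊓ N ≠ ⊥) : ∃ z ∈ D ⊓ N, z ≠ 1 ∧ ∀ y ∈ D, y * z = z * y := by
  have hnorm : (N.subgroupOf D).Normal := hN.subgroupOf D
  have h1 := (hD.of_equiv ConjAct.toConjAct).exists_fixed_point_of_prime_dvd_card_of_fixed_point
    (N.subgroupOf D)
  have h2 : ℓ ∣ Nat.card (N.subgroupOf D) := by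
    have h3 : IsPGroup ℓ (N.subgroupOf D) := hD.to_subgroup _
    have h4 : Nontrivial (N.subgroupOf D) := by
      rw [Subgroup.nontrivial_iff_ne_bot]
      intro h
      apply hne
      rw [Subgroup.subgroupOf_eq_bot] at h
      rw [inf_comm]
      exact h.eq_bot
    obtain ⟨n, hn, hn'⟩ := h3.nontrivial_iff_card.1 h4
    rw [hn']
    exact dvd_pow_self _ hn.ne'
  obtain ⟨b, hb, hb'⟩ := h1 h2 (a := 1) (by
    intro g
    exact smul_one g)
  refine ⟨(b : D), ⟨(b : D).2, Subgroup.mem_subgroupOf.1 b.2⟩, ?_, ?_⟩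
  · intro h
    apply hb'
    apply Subtype.ext
    apply Subtype.ext
    exact h.symm
  · intro y hy
    have h3 := hb (ConjAct.toConjAct ⟨y, hy⟩)
    have h4 : (⟨y, hy⟩ : D) * (b : D) * (⟨y, hy⟩ : D)⁻¹ = (b : D) := by
      have := congrArg Subtype.val h3
      exact this
    have h5 : y * ((b : D) : Γ) * y⁻¹ = ((b : D) : Γ) := congrArg Subtype.val h4
    rw [mul_inv_eq_iff_eq_mul] at h5
    exact h5

theorem inf_cent_ne_bot [Finite Γ] {N D : Subgroup Γ} (hN : N.Normal) (hD : IsPGroup ℓ D)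
    (hne : D ⊓ N ≠ ⊥) {c : Finset (Subgroup Γ)} (hc : ∀ E ∈ c, E ≤ D) :
    D ⊓ cent N c ≠ ⊥ := by
  obtain ⟨z, hz, hz1, hz2⟩ := exists_central hN hD hne
  intro h
  apply hz1
  have : z ∈ D ⊓ cent N c := by
    exact ⟨hz.1, mem_cent.2 ⟨hz.2, fun E hE y hy => hz2 y (hc E hE hy)⟩⟩
  rw [h] at this
  exact Subgroup.mem_bot.1 this

omit [Fact ℓ.Prime] in
/-- the modular law for commuting subgroups -/
theorem sup_inf_of_comm {P R W : Subgroup Γ} (hRW : R ≤ W) (hPW : P ⊓ W = ⊥)
    (hcomm : ∀ p ∈ P, ∀ r ∈ R, p * r = r * p) : (P ⊔ R) ⊓ W = R := by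
  let Q : Subgroup Γ :=
    { carrier := {x | ∃ p ∈ P, ∃ r ∈ R, x = p * r}
      one_mem' := ⟨1, P.one_mem, 1, R.one_mem, (one_mul 1).symm⟩
      mul_mem' := by
        rintro _ _ ⟨p, hp, r, hr, rfl⟩ ⟨p', hp', r', hr', rfl⟩
        refine ⟨p * p', P.mul_mem hp hp', r * r', R.mul_mem hr hr', ?_⟩
        rw [mul_assoc, ← mul_assoc r, ← hcomm p' hp' r hr]
        simp only [mul_assoc]
      inv_mem' := by
        rintro _ ⟨p, hp, r, hr, rfl⟩
        refine ⟨p⁻¹, P.inv_mem hp, r⁻¹, R.inv_mem hr, ?_⟩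
        rw [mul_inv_rev, hcomm _ (P.inv_mem hp) _ (R.inv_mem hr)] }
  have hQ : P ⊔ R ≤ Q := by
    apply sup_le
    · intro x hx; exact ⟨x, hx, 1, R.one_mem, (mul_one x).symm⟩
    · intro x hx; exact ⟨1, P.one_mem, x, hx, (one_mul x).symm⟩
  apply le_antisymm
  · rintro x ⟨hx, hxW⟩
    obtain ⟨p, hp, r, hr, rfl⟩ := hQ hx
    have h1 : p ∈ P ⊓ W := by
      refine ⟨hp, ?_⟩
      have := W.mul_mem hxW (W.inv_mem (hRW hr))
      simpa using this
    rw [hPW, Subgroup.mem_bot] at h1
    rw [h1, one_mul]; exact hr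
  · exact le_inf le_sup_right hRW

end group

section fibre

variable {ℓ : ℕ} [Fact ℓ.Prime] {Γ : Type} [Group Γ] [Finite Γ]

open Classical in
/-- the subgroups over `P` meeting `N` nontrivially, and `P` -/
def overS (ℓ : ℕ) {Γ : Type} [Group Γ] [Finite Γ] (N P : Subgroup Γ) : Finset (Subgroup Γ) :=
  (psub ℓ Γ).filter (fun D => P ≤ D ∧ (D = P ∨ D ⊓ N ≠ ⊥))

omit [Fact ℓ.Prime] in
theorem mem_over {N P D : Subgroup Γ} :
    D ∈ overS ℓ N P ↔ D ∈ psub ℓ Γ ∧ P ≤ D ∧ (D = P ∨ D ⊓ N ≠ ⊥) := by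
  simp [overS]

omit [Fact ℓ.Prime] in
open Classical in
/-- the chains with prescribed members meeting `N` trivially -/
theorem fibre_sum {N : Subgroup Γ} (c : Finset (Subgroup Γ)) (hc : c ∈ chainsOn (psub ℓ Γ) ⊥)
    (hcN : ∀ D ∈ c, D ⊓ N = ⊥) {P : Subgroup Γ} (hP : P ∈ c) (hPmax : ∀ D ∈ c, D ≤ P)
    (f : Finset (Subgroup Γ) → ℤ) :
    ∑ d ∈ (chainsOn (psub ℓ Γ) ⊥).filter (fun d => d.filter (fun D => D ⊓ N = ⊥) = c), f d =
      ∑ u ∈ chainsOn (overS ℓ N P) P, f (c ∪ u) := by
  obtain ⟨c1, c2, c3⟩ := mem_chainsOn.1 hc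
  have hPN := hcN P hP
  refine Finset.sum_bij' (fun d _ => insert P (d.filter (fun D => ¬ D ⊓ N = ⊥)))
    (fun u _ => c ∪ u) ?_ ?_ ?_ ?_ ?_
  · intro d hd
    rw [Finset.mem_filter] at hd
    obtain ⟨hd, hdc⟩ := hd
    obtain ⟨d1, d2, d3⟩ := mem_chainsOn.1 hd
    have hPd : P ∈ d := by
      rw [← hdc] at hP
      exact (Finset.mem_filter.1 hP).1
    have hle : ∀ D ∈ d, ¬ D ⊓ N = ⊥ → P ≤ D := by
      intro D hD hDN
      rcases chain_total d3 hPd hD with h | h
      · exact h
      · exfalso; apply hDN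
        rw [← le_bot_iff, ← hPN]
        exact inf_le_inf_right _ h
    rw [mem_chainsOn]
    refine ⟨?_, Finset.mem_insert_self _ _, ?_⟩
    · intro D hD
      rw [mem_over]
      rcases Finset.mem_insert.1 hD with rfl | hD
      · exact ⟨c1 hP, le_refl _, Or.inl rfl⟩
      · rw [Finset.mem_filter] at hD
        exact ⟨d1 hD.1, hle D hD.1 hD.2, Or.inr hD.2⟩
    · refine IsChain.mono ?_ d3
      intro D hD
      rcases Finset.mem_insert.1 (Finset.mem_coe.1 hD) with rfl | hD
      · exact hPd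
      · exact (Finset.mem_filter.1 hD).1
  · intro u hu
    obtain ⟨u1, u2, u3⟩ := mem_chainsOn.1 hu
    rw [Finset.mem_filter, mem_chainsOn]
    refine ⟨⟨?_, Finset.mem_union_left _ c2, ?_⟩, ?_⟩
    · intro D hD
      rcases Finset.mem_union.1 hD with hD | hD
      · exact c1 hD
      · exact (mem_over.1 (u1 hD)).1
    · intro D hD E hE _
      rcases Finset.mem_union.1 (Finset.mem_coe.1 hD) with hD | hD <;>
      rcases Finset.mem_union.1 (Finset.mem_coe.1 hE) with hE | hE
      · exact chain_total c3 hD hE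
      · left; exact (hPmax D hD).trans (mem_over.1 (u1 hE)).2.1
      · right; exact (hPmax E hE).trans (mem_over.1 (u1 hD)).2.1
      · exact chain_total u3 hD hE
    · ext D
      rw [Finset.mem_filter, Finset.mem_union]
      constructor
      · rintro ⟨h | h, h'⟩
        · exact h
        · rcases (mem_over.1 (u1 h)).2.2 with h2 | h2
          · rw [h2]; exact hP
          · exact absurd h' h2
      · intro h
        exact ⟨Or.inl h, hcN D h⟩
  · intro d hd
    rw [Finset.mem_filter] at hd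
    obtain ⟨hd, hdc⟩ := hd
    have hPd : P ∈ d := by
      rw [← hdc] at hP
      exact (Finset.mem_filter.1 hP).1
    ext D
    rw [Finset.mem_union, Finset.mem_insert, Finset.mem_filter]
    constructor
    · rintro (h | rfl | h)
      · rw [← hdc] at h
        exact (Finset.mem_filter.1 h).1
      · exact hPd
      · exact h.1
    · intro h
      by_cases hDN : D ⊓ N = ⊥
      · left; rw [← hdc]; exact Finset.mem_filter.2 ⟨h, hDN⟩
      · right; right; exact ⟨h, hDN⟩
  · intro u hu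
    obtain ⟨u1, u2, u3⟩ := mem_chainsOn.1 hu
    ext D
    rw [Finset.mem_insert, Finset.mem_filter, Finset.mem_union]
    constructor
    · rintro (rfl | ⟨h | h, h'⟩)
      · exact u2
      · exact absurd (hcN D h) h'
      · exact h
    · intro h
      rcases (mem_over.1 (u1 h)).2.2 with h2 | h2
      · left; exact h2
      · right; exact ⟨Or.inr h, h2⟩
  · intro d hd
    rw [Finset.mem_filter] at hd
    obtain ⟨hd, hdc⟩ := hd
    have hPd : P ∈ d := by
      rw [← hdc] at hP
      exact (Finset.mem_filter.1 hP).1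
    congr 1
    ext D
    rw [Finset.mem_union, Finset.mem_insert, Finset.mem_filter]
    constructor
    · intro h
      by_cases hDN : D ⊓ N = ⊥
      · left; rw [← hdc]; exact Finset.mem_filter.2 ⟨h, hDN⟩
      · right; right; exact ⟨h, hDN⟩
    · rintro (h | rfl | h)
      · rw [← hdc] at h
        exact (Finset.mem_filter.1 h).1
      · exact hPd
      · exact h.1

end fibre

section main

variable {ℓ : ℕ} [Fact ℓ.Prime] {Γ : Type} [Group Γ] [Finite Γ]

omit [Finite Γ] in
theorem stab_union_of {c u : Finset (Subgroup Γ)} [DecidableEq (Subgroup Γ)] {E : Subgroup Γ}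
    (h : ∀ g, (∀ D ∈ c ∪ u, conjS g D = D) → conjS g E = E) :
    stab (c ∪ insert E u) = stab (c ∪ u) := by
  ext g
  rw [mem_stab, mem_stab]
  constructor
  · intro h1 K hK
    apply h1 K
    rcases Finset.mem_union.1 hK with hK | hK
    · exact Finset.mem_union_left _ hK
    · exact Finset.mem_union_right _ (Finset.mem_insert_of_mem hK)
  · intro h1 K hK
    rcases Finset.mem_union.1 hK with hK | hK
    · exact h1 K (Finset.mem_union_left _ hK)
    · rcases Finset.mem_insert.1 hK with rfl | hK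
      · exact h g h1
      · exact h1 K (Finset.mem_union_right _ hK)

open Classical in
theorem inner (hO : opCore ℓ Γ = ⊥) {N : Subgroup Γ} (hN : N.Normal) (w : Subgroup Γ → ℤ)
    (c : Finset (Subgroup Γ)) (hc : c ∈ chainsOn (psub ℓ Γ) ⊥)
    (hcN : ∀ D ∈ c, D ⊓ N = ⊥) {P : Subgroup Γ} (hP : P ∈ c) (hPmax : ∀ D ∈ c, D ≤ P) :
    ∑ u ∈ chainsOn (overS ℓ N P) P, (-1) ^ ((c ∪ u).card + 1) * w (stab (c ∪ u)) =
      (-1) ^ (c.card + 1) * tsum ℓ N w c := by
  obtain ⟨c1, c2, c3⟩ := mem_chainsOn.1 hc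
  have hPN := hcN P hP
  have hPpsub := mem_psub.1 (c1 hP)
  have hWN : cent N c ≤ N := inf_le_left
  have hPW : P ⊓ cent N c = ⊥ := by
    rw [← le_bot_iff, ← hPN]
    exact inf_le_inf_left _ hWN
  have hcomm : ∀ p ∈ P, ∀ r ∈ cent N c, p * r = r * p := by
    intro p hp r hr
    exact (mem_cent.1 hr).2 P hP p hp
  let κ : Subgroup Γ → Subgroup Γ := fun D => P ⊔ (D ⊓ cent N c)
  have hκle : ∀ D, P ≤ D → κ D ≤ D := fun D hD => sup_le hD inf_le_left
  have hκP : κ P = P := sup_inf_self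
  have hκN : ∀ D ∈ overS ℓ N P, D ≠ P → κ D ⊓ N ≠ ⊥ := by
    intro D hD hDP
    obtain ⟨h1, h2, h3⟩ := mem_over.1 hD
    have h4 := inf_cent_ne_bot hN (mem_psub.1 h1).2 (h3.resolve_left hDP)
      (fun E hE => (hPmax E hE).trans h2)
    intro h
    apply h4
    rw [← le_bot_iff, ← h]
    exact le_inf le_sup_right (inf_le_right.trans hWN)
  have hκs : ∀ D ∈ overS ℓ N P, κ D ∈ overS ℓ N P := by
    intro D hD
    obtain ⟨h1, h2, h3⟩ := mem_over.1 hD
    rw [mem_over, mem_psub, hO]
    refine ⟨⟨bot_le, (mem_psub.1 h1).2.to_le (hκle D h2)⟩, le_sup_left, ?_⟩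
    by_cases hDP : D = P
    · left; rw [hDP, hκP]
    · right; exact hκN D hD hDP
  have hκfix : ∀ g, (∀ D ∈ c, conjS g D = D) → ∀ D, conjS g D = D → conjS g (κ D) = κ D := by
    intro g hg D hD
    show conjS g (P ⊔ (D ⊓ cent N c)) = P ⊔ (D ⊓ cent N c)
    rw [conjS_sup, conjS_inf, hg P hP, hD, conjS_cent hN hg]
  have hinter := inter (Subgroup Γ) (overS ℓ N P) P κ hκs
    (fun D hD => hκle D (mem_over.1 hD).2.1)
    (fun D _ E _ h => sup_le_sup_left (inf_le_inf_right _ h) _)
    (by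
      intro D hD
      apply le_antisymm
      · exact hκle _ le_sup_left
      · exact sup_le_sup_left (le_inf le_sup_right inf_le_right) _)
    hκP
    (by
      intro D hD h
      by_contra hDP
      exact hκN D hD hDP (by rw [h]; exact hPN))
    (fun D hD => (mem_over.1 hD).2.1)
    (fun u => (-1) ^ ((c ∪ u).card + 1) * w (stab (c ∪ u)))
    (by
      intro u hu D hD hDn
      obtain ⟨u1, u2, u3⟩ := mem_chainsOn.1 hu
      have h1 : κ D ∉ c ∪ u := by
        intro h
        rcases Finset.mem_union.1 h with h | h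
        · apply hDn
          have : κ D = P := le_antisymm (hPmax _ h) le_sup_left
          rw [this]; exact u2
        · exact hDn h
      have h2 : c ∪ insert (κ D) u = insert (κ D) (c ∪ u) := by
        rw [Finset.union_insert]
      rw [stab_union_of (E := κ D) (by
        intro g hg
        exact hκfix g (fun E hE => hg E (Finset.mem_union_left _ hE)) D
          (hg D (Finset.mem_union_right _ hD))), h2, Finset.card_insert_of_notMem h1]
      ring)
  rw [hinter]
  -- the fixed chains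
  have hup : ∀ R, R ≤ cent N c → (P ⊔ R) ⊓ cent N c = R := fun R hR =>
    sup_inf_of_comm hR hPW (fun p hp r hr => hcomm p hp r (hR hr))
  unfold tsum
  rw [Finset.mul_sum]
  refine Finset.sum_bij' (fun u _ => u.image (fun D => D ⊓ cent N c))
    (fun v _ => v.image (fun R => P ⊔ R)) ?_ ?_ ?_ ?_ ?_
  · intro u hu
    rw [Finset.mem_filter, mem_chainsOn] at hu
    obtain ⟨⟨u1, u2, u3⟩, u4⟩ := hu
    rw [mem_chainsOn]
    refine ⟨?_, ?_, ?_⟩
    · intro R hR
      obtain ⟨D, hD, rfl⟩ := Finset.mem_image.1 hR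
      rw [mem_psubIn]
      exact ⟨inf_le_right, (mem_psub.1 (mem_over.1 (u1 hD)).1).2.to_le inf_le_left⟩
    · exact Finset.mem_image.2 ⟨P, u2, hPW⟩
    · intro R hR S hS _
      obtain ⟨D, hD, rfl⟩ := Finset.mem_image.1 (Finset.mem_coe.1 hR)
      obtain ⟨E, hE, rfl⟩ := Finset.mem_image.1 (Finset.mem_coe.1 hS)
      rcases chain_total u3 hD hE with h | h
      · left; exact inf_le_inf_right _ h
      · right; exact inf_le_inf_right _ h
  · intro v hv
    rw [mem_chainsOn] at hv
    obtain ⟨v1, v2, v3⟩ := hv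
    rw [Finset.mem_filter, mem_chainsOn]
    refine ⟨⟨?_, ?_, ?_⟩, ?_⟩
    · intro D hD
      obtain ⟨R, hR, rfl⟩ := Finset.mem_image.1 hD
      obtain ⟨h1, h2⟩ := mem_psubIn.1 (v1 hR)
      rw [mem_over, mem_psub, hO]
      have hn : R ≤ Subgroup.normalizer (P : Set Γ) := by
        intro r hr
        rw [mem_normalizer_iff_conjS]
        ext x
        rw [mem_conjS]
        constructor
        · intro hx
          have h3 := hcomm _ hx r (h1 hr)
          have h4 : r⁻¹ * x * r = x := by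
            have h5 : r * (r⁻¹ * x * r) = r * (r⁻¹ * x * r) := rfl
            have h6 : x * r = (r⁻¹ * x * r) * r := by
              rw [h3]; group
            exact (mul_right_cancel h6).symm
          rwa [h4] at hx
        · intro hx
          have h3 := hcomm _ hx r (h1 hr)
          have h4 : r⁻¹ * x * r = x := by
            rw [mul_assoc, h3, inv_mul_cancel_left]
          rwa [h4]
      refine ⟨⟨bot_le, ?_⟩, le_sup_left, ?_⟩
      · exact hPpsub.2.to_sup_of_normal_left' h2 hn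
      · by_cases hRb : R = ⊥
        · left; rw [hRb, sup_bot_eq]
        · right
          intro h
          apply hRb
          rw [← le_bot_iff, ← h]
          exact le_inf le_sup_right (h1.trans hWN)
    · exact Finset.mem_image.2 ⟨⊥, v2, sup_bot_eq _⟩
    · intro R hR S hS _
      obtain ⟨D, hD, rfl⟩ := Finset.mem_image.1 (Finset.mem_coe.1 hR)
      obtain ⟨E, hE, rfl⟩ := Finset.mem_image.1 (Finset.mem_coe.1 hS)
      rcases chain_total v3 hD hE with h | h
      · left; exact sup_le_sup_left h _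
      · right; exact sup_le_sup_left h _
    · intro D hD
      obtain ⟨R, hR, rfl⟩ := Finset.mem_image.1 hD
      show P ⊔ ((P ⊔ R) ⊓ cent N c) = P ⊔ R
      rw [hup R (mem_psubIn.1 (v1 hR)).1]
  · intro u hu
    rw [Finset.mem_filter, mem_chainsOn] at hu
    obtain ⟨⟨u1, u2, u3⟩, u4⟩ := hu
    ext D
    rw [Finset.mem_image]
    constructor
    · rintro ⟨R, hR, rfl⟩
      obtain ⟨E, hE, rfl⟩ := Finset.mem_image.1 hR
      rw [show P ⊔ (E ⊓ cent N c) = E from u4 E hE]
      exact hE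
    · intro hD
      exact ⟨D ⊓ cent N c, Finset.mem_image_of_mem _ hD, u4 D hD⟩
  · intro v hv
    rw [mem_chainsOn] at hv
    obtain ⟨v1, v2, v3⟩ := hv
    ext R
    rw [Finset.mem_image]
    constructor
    · rintro ⟨D, hD, rfl⟩
      obtain ⟨S, hS, rfl⟩ := Finset.mem_image.1 hD
      rw [hup S (mem_psubIn.1 (v1 hS)).1]
      exact hS
    · intro hR
      exact ⟨P ⊔ R, Finset.mem_image_of_mem _ hR, hup R (mem_psubIn.1 (v1 hR)).1⟩
  · intro u hu
    rw [Finset.mem_filter, mem_chainsOn] at hu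
    obtain ⟨⟨u1, u2, u3⟩, u4⟩ := hu
    have hcard : (u.image (fun D => D ⊓ cent N c)).card = u.card := by
      apply Finset.card_image_of_injOn
      intro D hD E hE h
      have h' : D ⊓ cent N c = E ⊓ cent N c := h
      rw [← u4 D hD, ← u4 E hE]
      show P ⊔ (D ⊓ cent N c) = P ⊔ (E ⊓ cent N c)
      rw [h']
    have hinter' : c ∩ u = {P} := by
      ext D
      rw [Finset.mem_inter, Finset.mem_singleton]
      constructor
      · rintro ⟨h1, h2⟩
        exact le_antisymm (hPmax D h1) (mem_over.1 (u1 h2)).2.1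
      · rintro rfl
        exact ⟨hP, u2⟩
    have hcu : (c ∪ u).card + 1 = c.card + u.card := by
      have := Finset.card_union_add_card_inter c u
      rw [hinter', Finset.card_singleton] at this
      exact this
    have hst : stab (c ∪ u) = stab c ⊓ stab (u.image (fun D => D ⊓ cent N c)) := by
      ext g
      rw [mem_stab, Subgroup.mem_inf, mem_stab, mem_stab]
      constructor
      · intro h
        have h1 : ∀ D ∈ c, conjS g D = D := fun D hD => h D (Finset.mem_union_left _ hD)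
        refine ⟨h1, ?_⟩
        intro R hR
        obtain ⟨D, hD, rfl⟩ := Finset.mem_image.1 hR
        rw [conjS_inf, conjS_cent hN h1, h D (Finset.mem_union_right _ hD)]
      · rintro ⟨h1, h2⟩ D hD
        rcases Finset.mem_union.1 hD with hD | hD
        · exact h1 D hD
        · rw [← u4 D hD]
          show conjS g (P ⊔ (D ⊓ cent N c)) = P ⊔ (D ⊓ cent N c)
          rw [conjS_sup, h1 P hP, h2 _ (Finset.mem_image_of_mem _ hD)]
    rw [hcard, hst, hcu, ← mul_assoc, ← pow_add]
    congr 1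
    rw [show c.card + 1 + (u.card + 1) = c.card + u.card + 2 by ring, pow_add _ _ 2]
    norm_num

end main

/-- CHAINRED -/
theorem chainRed : ChainRedStmt := by
  intro ℓ _ Γ _ _ N hN hO w
  classical
  rw [← Finset.sum_fiberwise_of_maps_to
    (t := (chainsOn (psub ℓ Γ) ⊥).filter (fun c => ∀ D ∈ c, D ⊓ N = ⊥))
    (g := fun d => d.filter (fun D => D ⊓ N = ⊥))]
  · apply Finset.sum_congr rfl
    intro c hc
    rw [Finset.mem_filter] at hc
    obtain ⟨hc, hcN⟩ := hc
    obtain ⟨c1, c2, c3⟩ := mem_chainsOn.1 hc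
    obtain ⟨P, hP, hPmax⟩ := exists_greatest c3 ⟨_, c2⟩
    have h1 := fibre_sum c hc hcN hP hPmax
      (fun d => (-1) ^ (d.card + 1) * w (stab d))
    have h2 := inner hO hN w c hc hcN hP hPmax
    rw [← h2, ← h1]
  · intro d hd
    obtain ⟨d1, d2, d3⟩ := mem_chainsOn.1 hd
    rw [Finset.mem_filter, mem_chainsOn]
    refine ⟨⟨(Finset.filter_subset _ _).trans d1, ?_, ?_⟩, ?_⟩
    · exact Finset.mem_filter.2 ⟨d2, bot_inf_eq _⟩
    · exact d3.mono (by intro D hD; exact (Finset.mem_filter.1 (Finset.mem_coe.1 hD)).1)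
    · intro D hD
      exact (Finset.mem_filter.1 hD).2

end Pool.Agent.Helper79_WRA.H91
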